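import Pool.Agent.H494R3.NK.Stmts

set_option autoImplicit false

namespace Pool.Agent.H481R4.NK

open PowerSeries Pool.Agent.H494R3.NK

/-- multiplication by `d` as a linear endomorphism -/
noncomputable def mulL (d : PowerSeries ℚ) : Module.End ℚ (PowerSeries ℚ) where
  toFun h := h * d
  map_add' a b := add_mul a b d
  map_smul' r a := by
    show (r • a) * d = r • (a * d)
    exact smul_mul_assoc r a d

theorem mulL_apply (d h : PowerSeries ℚ) : mulL d h = h * d := rfl

theorem mulL_mem (d : PowerSeries ℚ) : mulL d ∈ R0 :=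
  ⟨0, fun h => by rw [mulL_apply, mulL_apply, pow_zero]; ring⟩

theorem taskUnitIdeal : Pool.Agent.H494R3.NK.TaskUnitIdeal := by
  intro x hx
  obtain ⟨N, hN⟩ := x.2
  obtain ⟨c, hc⟩ : ∃ c : PowerSeries ℚ, c = x.1 (X ^ N) := ⟨_, rfl⟩
  have hc0 : c ≠ 0 := by
    intro h0
    exact hx ⟨N, fun h => by rw [hN, ← hc, h0, mul_zero]⟩
  have hinj : LinearMap.ker (mulL c) = ⊥ := by
    rw [LinearMap.ker_eq_bot']
    intro m hm
    rw [mulL_apply] at hm
    rcases mul_eq_zero.1 hm with h | h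
    · exact h
    · exact absurd h hc0
  obtain ⟨α, hα⟩ := LinearMap.exists_leftInverse_of_injective (mulL c) hinj
  have hα' : ∀ h : PowerSeries ℚ, α (h * c) = h := fun h => by
    have := LinearMap.congr_fun hα h
    simpa [mulL_apply] using this
  obtain ⟨w, hw⟩ : ∃ w : PowerSeries ℚ, X ^ c.order.toNat = w * c := by
    have h1 : X ^ c.order.toNat * divXPowOrder c = c := X_pow_order_mul_divXPowOrder
    have h2 : constantCoeff (divXPowOrder c) ≠ 0 := by
      intro h
      exact hc0 (constantCoeff_divXPowOrder_eq_zero_iff.1 h)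
    generalize hd : divXPowOrder c = d at h1 h2
    refine ⟨d⁻¹, ?_⟩
    calc X ^ c.order.toNat = X ^ c.order.toNat * (d * d⁻¹) := by
          rw [PowerSeries.mul_inv_cancel _ h2, mul_one]
      _ = d⁻¹ * (X ^ c.order.toNat * d) := by ring
      _ = d⁻¹ * c := by rw [h1]
  have hαm : α ∈ R0 := ⟨c.order.toNat, fun h => by
    rw [hw, ← mul_assoc, hα', hα']⟩
  refine ⟨⟨α, hαm⟩, ⟨mulL (X ^ N), mulL_mem _⟩, ?_⟩
  apply Subtype.ext
  apply LinearMap.ext
  intro h
  show α (x.1 (mulL (X ^ N) h)) = h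
  rw [mulL_apply, hN, ← hc, hα']

end Pool.Agent.H481R4.NK
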